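import Pool.Agent.Lib.ZE80.Blk

/-! The product of a manifold with a flat torus. -/

open scoped Classical Topology ContDiff ComplexOrder Matrix Real
open Set Complex Filter

noncomputable section

namespace Pool.Agent.Lib.ZE80

open Pool.Agent.Lib.SV (E)
open Pool.Agent.Lib.HS32

variable {n : ℕ}

/-- The circle of length `2 π`. -/
abbrev Ci : Type := AddCircle (2 * π)

instance fpos : Fact (0 < 2 * π) := ⟨Real.two_pi_pos⟩

/-- The torus. -/
abbrev To : Type := Ci × Ci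

/-- The covering map of the torus. -/
def q (τ : ℂ) : To := ((τ.re : ℝ), (τ.im : ℝ))

theorem q_add (σ τ : ℂ) : q (σ + τ) = q σ + q τ := rfl

theorem q_sub (σ τ : ℂ) : q (σ - τ) = q σ - q τ := rfl

theorem q_cont : Continuous q :=
  ((AddCircle.continuous_mk' _).comp continuous_re).prodMk
    ((AddCircle.continuous_mk' _).comp continuous_im)

theorem q_surj (t : To) : ∃ τ, q τ = t := by
  obtain ⟨a, b⟩ := t
  obtain ⟨x, rfl⟩ := QuotientAddGroup.mk_surjective a
  obtain ⟨y, rfl⟩ := QuotientAddGroup.mk_surjective b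
  exact ⟨⟨x, y⟩, rfl⟩

theorem q_per (τ : ℂ) : q (τ + 2 * π) = q τ ∧ q (τ + 2 * π * I) = q τ := by
  constructor <;> simp [q, ← ofReal_ofNat, ← ofReal_mul]

/-- The chart of the torus on the square with centre `a`. -/
def tc (a : ℂ) : OpenPartialHomeomorph To ℂ :=
  ((AddCircle.openPartialHomeomorphCoe (2 * π) (a.re - π)).symm.prod
    (AddCircle.openPartialHomeomorphCoe (2 * π) (a.im - π)).symm).transHomeomorph
      equivRealProdCLM.symm.toHomeomorph

theorem tc_symm (a τ : ℂ) : (tc a).symm τ = q τ := rfl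

theorem tc_tgt {a τ : ℂ} : τ ∈ (tc a).target ↔
    τ.re ∈ Ioo (a.re - π) (a.re - π + 2 * π) ∧ τ.im ∈ Ioo (a.im - π) (a.im - π + 2 * π) := Iff.rfl

theorem tc_self (a : ℂ) : a ∈ (tc a).target := by
  have := Real.pi_pos
  rw [tc_tgt]
  refine ⟨⟨?_, ?_⟩, ?_, ?_⟩ <;> linarith

theorem tc_q {a τ : ℂ} (h : τ ∈ (tc a).target) : q τ ∈ (tc a).source ∧ tc a (q τ) = τ :=
  ⟨(tc a).map_target h, (tc a).right_inv h⟩

theorem q_tc {a : ℂ} {t : To} (h : t ∈ (tc a).source) : q (tc a t) = t := (tc a).left_inv h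

theorem tc_ev {a τ : ℂ} (h : q τ ∈ (tc a).source) :
    ∀ᶠ σ in 𝓝 τ, tc a (q σ) = σ + (tc a (q τ) - τ) := by
  have h1 : ContinuousAt (fun σ : ℂ => σ + (tc a (q τ) - τ)) τ := by fun_prop
  have h2 : (tc a).target ∈ 𝓝 (τ + (tc a (q τ) - τ)) := by
    rw [add_sub_cancel]
    exact (tc a).open_target.mem_nhds ((tc a).map_source h)
  filter_upwards [h1.eventually h2] with σ hσ
  rw [← (tc_q hσ).2, q_add, q_sub, q_tc h, sub_self, add_zero]

/-- The coordinates of a product. -/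
def hm (n : ℕ) : E n × ℂ ≃ₜ E (n + 1) where
  toFun p := Fin.cons p.2 p.1
  invFun w := (Fin.tail w, w 0)
  left_inv p := by simp
  right_inv w := Fin.cons_self_tail w
  continuous_toFun := continuous_pi fun i =>
    Fin.cases continuous_snd (fun i => (continuous_apply i).comp continuous_fst) i
  continuous_invFun := (tl ℝ n).continuous.prodMk (continuous_apply 0)

section chart

variable {X : Type} [TopologicalSpace X]

/-- A product chart. -/
def pc (e : OpenPartialHomeomorph X (E n)) (a : ℂ) : OpenPartialHomeomorph (X × To) (E (n + 1)) :=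
  (e.prod (tc a)).transHomeomorph (hm n)

variable {e e' : OpenPartialHomeomorph X (E n)} {a a' : ℂ}

theorem pc_apply (x : X × To) : pc e a x = Fin.cons (tc a x.2) (e x.1) := rfl

theorem pc_symm (w : E (n + 1)) : (pc e a).symm w = (e.symm (Fin.tail w), q (w 0)) := rfl

theorem pc_src {x : X × To} : x ∈ (pc e a).source ↔ x.1 ∈ e.source ∧ x.2 ∈ (tc a).source :=
  Iff.rfl

theorem pc_tgt {w : E (n + 1)} :
    w ∈ (pc e a).target ↔ Fin.tail w ∈ e.target ∧ w 0 ∈ (tc a).target := Iff.rfl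

theorem tail_pc (x : X × To) : Fin.tail (pc e a x) = e x.1 := rfl

theorem pc_ev {w : E (n + 1)} (h : q (w 0) ∈ (tc a).source) : pc e a ∘ (pc e' a').symm =ᶠ[𝓝 w]
    fun u => Fin.cons (u 0 + (tc a (q (w 0)) - w 0)) ((e ∘ e'.symm) (Fin.tail u)) := by
  filter_upwards [(continuous_apply (0 : Fin (n + 1))).continuousAt.eventually (tc_ev h)] with u hu
  exact congrArg (fun c : ℂ => (Fin.cons c ((e ∘ e'.symm) (Fin.tail u)) : E (n + 1))) hu

theorem hfd_blk {ψ : E n → E n} {w : E (n + 1)} (c : ℂ) (h : DifferentiableAt ℂ ψ (Fin.tail w)) :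
    HasFDerivAt (fun u : E (n + 1) => (Fin.cons (u 0 + c) (ψ (Fin.tail u)) : E (n + 1)))
      (ContinuousLinearMap.pi (Fin.cons (ContinuousLinearMap.proj 0) fun i =>
        (ContinuousLinearMap.proj i).comp ((fderiv ℂ ψ (Fin.tail w)).comp (tl ℂ n)))) w := by
  refine hasFDerivAt_pi.2 fun i => Fin.cases ?_ (fun i => ?_) i
  · exact (hasFDerivAt_apply 0 w).add_const c
  · exact (hasFDerivAt_apply i _).comp w (h.hasFDerivAt.comp w (tl ℂ n).hasFDerivAt)

theorem jm_blk {ψ : E n → E n} {w : E (n + 1)} (c : ℂ) (h : DifferentiableAt ℂ ψ (Fin.tail w)) :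
    jm (fun u : E (n + 1) => (Fin.cons (u 0 + c) (ψ (Fin.tail u)) : E (n + 1))) w =
      blk 1 (jm ψ (Fin.tail w)) := by
  apply ext4 <;>
    simp [jm, (hfd_blk c h).fderiv, tl_coe, tail_single0, tail_single, (Fin.succ_ne_zero _).symm]

/-- The change of chart is holomorphic at all points. -/
def Cp {m : ℕ} (e e' : OpenPartialHomeomorph X (E m)) : Prop :=
  ∀ z ∈ e'.target, e'.symm z ∈ e.source → DifferentiableAt ℂ (e ∘ e'.symm) z

theorem Cp.trans {m : ℕ} {S : Set (OpenPartialHomeomorph X (E m))}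
    (hS : ∀ x, ∃ c ∈ S, x ∈ c.source) {e e' : OpenPartialHomeomorph X (E m)}
    (h : ∀ c ∈ S, Cp e c) (h' : ∀ c ∈ S, Cp c e') : Cp e e' := by
  intro z hz hz'
  obtain ⟨c, hc, hy⟩ := hS (e'.symm z)
  have h2 : DifferentiableAt ℂ (e ∘ c.symm) ((c ∘ e'.symm) z) :=
    h c hc _ (c.map_source hy) (by
      show c.symm (c (e'.symm z)) ∈ e.source
      rwa [c.left_inv hy])
  refine (h2.comp z (h' c hc z hz hy)).congr_of_eventuallyEq ?_
  filter_upwards [(e'.isOpen_inter_preimage_symm c.open_source).mem_nhds ⟨hz, hy⟩] with w hw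
  show e (e'.symm w) = e (c.symm (c (e'.symm w)))
  rw [c.left_inv hw.2]

/-- The manifold generated by a family of charts. -/
def gen {m : ℕ} (S : Set (OpenPartialHomeomorph X (E m))) (hS : ∀ x, ∃ c ∈ S, x ∈ c.source)
    (hc : ∀ c ∈ S, ∀ c' ∈ S, Cp c c') : Mf m where
  X := X
  C := {e | ∀ c ∈ S, Cp e c ∧ Cp c e}
  cov x := (hS x).imp fun c h => ⟨fun c' h' => ⟨hc c h.1 c' h', hc c' h' c h.1⟩, h.2⟩
  hol e he e' he' z hz := (Cp.trans hS (fun c h => (he c h).1) (fun c h => (he' c h).2) z hz.1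
    hz.2).differentiableWithinAt
  sat e he ψ h1 h2 c h := by
    refine ⟨fun z hz hz' => ?_, fun z hz hz' => ?_⟩
    · exact (h1.differentiableAt (ψ.open_source.mem_nhds hz'.2)).comp (f := e ∘ c.symm) z
        ((he c h).1 z hz hz'.1)
    · exact DifferentiableAt.comp (g := c ∘ e.symm) z ((he c h).2 _ hz.2 hz')
        (h2.differentiableAt (ψ.open_target.mem_nhds hz.1))

end chart

theorem cp_mf (M : Mf n) {e e' : M.Ch} (he : e ∈ M.C) (he' : e' ∈ M.C) : Cp e e' :=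
  fun _ hz hz' => (M.hol e he e' he').differentiableAt
    ((e'.isOpen_inter_preimage_symm e.open_source).mem_nhds ⟨hz, hz'⟩)

/-- The product charts. -/
def PS (M : Mf n) : Set (OpenPartialHomeomorph (M.X × To) (E (n + 1))) :=
  {c | ∃ e ∈ M.C, ∃ a, pc e a = c}

theorem ps_cov (M : Mf n) (x : M.X × To) : ∃ c ∈ PS M, x ∈ c.source := by
  obtain ⟨τ, h⟩ := q_surj x.2
  exact ⟨_, ⟨_, Mf.ch_mem x.1, τ, rfl⟩, Mf.mem_ch x.1, h ▸ (tc_q (tc_self τ)).1⟩

theorem ps_cp (M : Mf n) : ∀ c ∈ PS M, ∀ c' ∈ PS M, Cp c c' := by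
  rintro _ ⟨e, he, a, rfl⟩ _ ⟨e', he', a', rfl⟩ w hw hw'
  exact (hfd_blk _ (cp_mf M he he' _ hw.1 hw'.1)).differentiableAt.congr_of_eventuallyEq
    (pc_ev hw'.2)

/-- The product of `M` with the torus. -/
def pd (M : Mf n) : Mf (n + 1) := gen (PS M) (ps_cov M) (ps_cp M)

variable {M : Mf n} {e e' : M.Ch} {a a' : ℂ}

theorem pc_mem (he : e ∈ M.C) (a : ℂ) : pc e a ∈ (pd M).C := fun c h =>
  ⟨ps_cp M _ ⟨e, he, a, rfl⟩ c h, ps_cp M c h _ ⟨e, he, a, rfl⟩⟩

theorem pd_sub (M : Mf n) : (pd M).Sub (PS M) :=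
  ⟨by rintro _ ⟨e, he, a, rfl⟩; exact pc_mem he a, ps_cov M⟩

instance pd_cpt (M : Mf n) [M.Cpt] : (pd M).Cpt :=
  ⟨inferInstanceAs (T2Space (M.X × To)), inferInstanceAs (CompactSpace (M.X × To)),
    inferInstanceAs (ConnectedSpace (M.X × To))⟩

theorem pd_J (he : e ∈ M.C) (he' : e' ∈ M.C) {x : M.X × To} (hx : x ∈ (pc e a).source)
    (hx' : x ∈ (pc e' a').source) : (pd M).J (pc e a) (pc e' a') x = blk 1 (M.J e e' x.1) := by
  have h1 : q (pc e' a' x 0) ∈ (tc a).source := by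
    show q (tc a' x.2) ∈ _
    rw [q_tc hx'.2]
    exact hx.2
  have h2 : DifferentiableAt ℂ (e ∘ e'.symm) (Fin.tail (pc e' a' x)) :=
    cp_mf M he he' _ (e'.map_source hx'.1) (by
      show e'.symm (e' x.1) ∈ _
      rw [e'.left_inv hx'.1]
      exact hx.1)
  have h3 := jm_blk (tc a (q (pc e' a' x 0)) - pc e' a' x 0) h2
  refine Eq.trans ?_ h3
  show jm (pc e a ∘ (pc e' a').symm) (pc e' a' x) = _
  unfold jm
  rw [(pc_ev (e := e) (e' := e') (a' := a') h1).fderiv_eq]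

theorem allOn_ps {p : (pd M).Ch → E (n + 1) → Prop}
    (h : ∀ e ∈ M.C, ∀ a, ∀ w : E (n + 1), Fin.tail w ∈ e.target → w 0 ∈ (tc a).target →
      p (pc e a) w) : (pd M).AllOn (PS M) p := by
  rintro _ ⟨e, he, a, rfl⟩ w hw
  exact h e he a w hw.1 hw.2

/-! ### Smooth functions -/

section sm

variable {F : Type} [NormedAddCommGroup F] [NormedSpace ℝ F]

theorem sm_of {U : M.X × To → F} (h : ∀ e ∈ M.C, ∀ w : E (n + 1), Fin.tail w ∈ e.target →
    ContDiffAt ℝ ∞ (fun u : E (n + 1) => U (e.symm (Fin.tail u), q (u 0))) w) : (pd M).Sm U :=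
  (mSUB _ _ _ (pd_sub M)).2.1 F U (allOn_ps fun e he _ w hw _ => h e he w hw)

theorem sm_at {U : M.X × To → F} (h : (pd M).Sm U) (he : e ∈ M.C) {w : E (n + 1)}
    (hw : Fin.tail w ∈ e.target) :
    ContDiffAt ℝ ∞ (fun u : E (n + 1) => U (e.symm (Fin.tail u), q (u 0))) w :=
  h _ (pc_mem he (w 0)) w ⟨hw, tc_self _⟩

theorem sm_fst {f : M.X → F} (hf : M.Sm f) : (pd M).Sm fun x : M.X × To => f x.1 :=
  sm_of fun e he w hw => (hf e he _ hw).comp w (cd_tail w)

theorem sm_snd {g : To → F} (hg : ContDiff ℝ ∞ fun τ => g (q τ)) :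
    (pd M).Sm fun x : M.X × To => g x.2 :=
  sm_of fun _ _ w _ => hg.contDiffAt.comp w (contDiffAt_apply ℝ ℂ 0 w)

theorem sm_slice {U : M.X × To → F} (h : (pd M).Sm U) (t : To) : M.Sm fun y => U (y, t) := by
  obtain ⟨τ, rfl⟩ := q_surj t
  exact fun e he z hz => (sm_at h he (w := Fin.cons τ z) hz).comp z (cd_cons τ z)

theorem sm_fib {U : M.X × To → F} (h : (pd M).Sm U) (y : M.X) :
    ContDiff ℝ ∞ fun τ => U (y, q τ) := by
  refine contDiff_iff_contDiffAt.2 fun τ => ?_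
  have := (sm_at h (Mf.ch_mem y) (w := Fin.cons τ (M.ch y y)) (Mf.ch_tgt y)).comp τ
    (cd_single (M.ch y y) τ)
  simpa only [Function.comp_def, Fin.tail_cons, Fin.cons_zero, Mf.ch_symm] using this

theorem sm_shift {U : M.X × To → F} (h : (pd M).Sm U) (t : To) :
    (pd M).Sm fun x : M.X × To => U (x.1, x.2 + t) := by
  obtain ⟨τ, rfl⟩ := q_surj t
  refine sm_of fun e he w hw => ?_
  have h1 : Fin.tail (w + Pi.single 0 τ : E (n + 1)) ∈ e.target := by
    have : Fin.tail (w + Pi.single 0 τ : E (n + 1)) = Fin.tail w := by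
      funext i
      simp [Fin.tail]
    rwa [this]
  have h2 := (sm_at h he h1).comp w (f := fun u : E (n + 1) => u + Pi.single 0 τ)
    (contDiffAt_id.add contDiffAt_const)
  refine h2.congr_of_eventuallyEq (Eventually.of_forall fun u => ?_)
  have : Fin.tail (u + Pi.single 0 τ : E (n + 1)) = Fin.tail u := by
    funext i
    simp [Fin.tail]
  simp only [Function.comp_apply, this, Pi.add_apply, Pi.single_eq_same, q_add]

end sm

/-! ### Forms -/

/-- A lift of a point of the torus. -/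
def lf (t : To) : ℂ := (q_surj t).choose

theorem q_lf (t : To) : q (lf t) = t := (q_surj t).choose_spec

/-- A product chart that contains `x`. -/
def cx (M : Mf n) (x : M.X × To) : (pd M).Ch := pc (M.ch x.1) (lf x.2)

theorem cx_mem (x : M.X × To) : cx M x ∈ (pd M).C := pc_mem (Mf.ch_mem _) _

theorem mem_cx (x : M.X × To) : x ∈ (cx M x).source :=
  ⟨Mf.mem_ch _, by have := (tc_q (tc_self (lf x.2))).1; rwa [q_lf] at this⟩

/-- The sum of `r` times the flat form and of the pull-back of `T`. -/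
def pf (M : Mf n) (r : ℝ) (T : M.Fam (Mat n)) : (pd M).Fam (Mat (n + 1)) := fun e z =>
  ((pd M).J (cx M (e.symm z)) e (e.symm z))ᴴ * blk r (M.ev T (e.symm z : M.X × To).1) *
    (pd M).J (cx M (e.symm z)) e (e.symm z)

variable {r s : ℝ} {S T : M.Fam (Mat n)}

theorem pf_add : pf M (r + s) (S + T) = pf M r S + pf M s T := by
  funext e z
  simp only [pf, Mf.ev, Pi.add_apply, ofReal_add, blk_add, mul_add, add_mul]

theorem pf_sub : pf M (r - s) (S - T) = pf M r S - pf M s T := by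
  funext e z
  simp only [pf, Mf.ev, Pi.sub_apply, ofReal_sub, blk_sub, mul_sub, sub_mul]

theorem pf_neg : pf M (-r) (-T) = -pf M r T := by
  funext e z
  simp only [pf, Mf.ev, Pi.neg_apply, ofReal_neg, blk_neg, mul_neg, neg_mul]

theorem pf_smul (c : ℝ) : pf M (c * r) (c • T) = c • pf M r T := by
  funext e z
  simp only [pf, Mf.ev, Pi.smul_apply, ofReal_mul, blk_rsmul, Matrix.mul_smul, Matrix.smul_mul]

theorem pf_zero : pf M 0 0 = 0 := by
  funext e z
  simp only [pf, Mf.ev, Pi.zero_apply, ofReal_zero, blk_zero, mul_zero, zero_mul]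

theorem pf_fsmul (u : M.X → ℝ) : pf M 0 (fun e z => u (e.symm z) • T e z) =
    fun e z => u (e.symm z : M.X × To).1 • pf M 0 T e z := by
  funext e z
  have := fun (c : ℝ) (A : Mat n) => blk_rsmul (r := 0) (A := A) c
  simp only [mul_zero] at this
  simp only [pf, Mf.ev, Mf.ch_symm, ofReal_zero, this, Matrix.mul_smul, Matrix.smul_mul]

theorem pf_congr (h : M.All fun e z => S e z = T e z) : pf M r S = pf M r T := by
  funext e z
  simp only [pf, Mf.ev_congr h]

theorem pf_src (e : (pd M).Ch) {x : M.X × To} (hx : x ∈ e.source) : pf M r T e (e x) =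
    ((pd M).J (cx M x) e x)ᴴ * blk r (M.ev T x.1) * (pd M).J (cx M x) e x := by
  simp only [pf, e.left_inv hx]

theorem pf_cmp : (pd M).Ov fun e e' x =>
    pf M r T e' (e' x) = ((pd M).J e e' x)ᴴ * pf M r T e (e x) * (pd M).J e e' x := by
  intro e he e' he' x hx hx'
  show pf M r T e' (e' x) = _
  rw [pf_src e hx, pf_src e' hx',
    ((mTR _ (pd M)).2.1 _ (cx_mem x) e he x (mem_cx x) hx).2.2.2.2 e' he' hx']
  simp only [Matrix.conjTranspose_mul, Matrix.mul_assoc]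

/-- The form in a product chart. -/
theorem pf_pc (hT : M.Ten T) (he : e ∈ M.C) {w : E (n + 1)} (hw : w ∈ (pc e a).target) :
    pf M r T (pc e a) w = blk r (T e (Fin.tail w)) := by
  have hx := (pc e a).map_target hw
  have h1 : pf M r T (pc e a) w =
      ((pd M).J (cx M ((pc e a).symm w)) (pc e a) ((pc e a).symm w))ᴴ *
        blk r (M.ev T ((pc e a).symm w).1) *
        (pd M).J (cx M ((pc e a).symm w)) (pc e a) ((pc e a).symm w) := rfl
  have h2 := hT.cmp _ (Mf.ch_mem ((pc e a).symm w).1) e he _ (Mf.mem_ch _) hx.1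
  have h3 : e ((pc e a).symm w).1 = Fin.tail w := e.right_inv hw.1
  beta_reduce at h2
  rw [h3] at h2
  rw [h1, cx, pd_J (Mf.ch_mem _) he (mem_cx _) hx, blk_ct, blk_mul, blk_mul, h2, star_one, one_mul,
    mul_one]
  rfl

theorem pf_ev (hT : M.Ten T) (he : e ∈ M.C) {w : E (n + 1)} (hw : w ∈ (pc e a).target) :
    pf M r T (pc e a) =ᶠ[𝓝 w] fun u => blk r (T e (Fin.tail u)) :=
  ((pc e a).open_target.eventually_mem hw).mono fun _ hu => pf_pc hT he hu

theorem pf_ten (hT : M.Ten T) : (pd M).Ten (pf M r T) := by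
  refine ⟨fun e he z hz => ?_, pf_cmp⟩
  have hx := e.map_target hz
  obtain ⟨h1, h2, -, h3, -⟩ := (mTR _ (pd M)).2.1 _ (cx_mem (e.symm z)) e he _ (mem_cx _) hx
  rw [Mf.J] at h2
  rw [e.right_inv hz] at h1 h2 h3
  have h0 := (cx M (e.symm z)).map_source (mem_cx (e.symm z))
  have h4 : SmM (pf M r T (cx M (e.symm z))) (cx M (e.symm z) (e.symm z)) :=
    (smM_blk r (hT.sm _ (Mf.ch_mem _) _ h0.1)).congr (pf_ev hT (Mf.ch_mem _) h0)
  refine (mPB _ (cx M (e.symm z) ∘ e.symm) z (pf M r T (cx M (e.symm z))) (pf M r T e) h1 h2 h4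
    ?_).1
  filter_upwards [h3] with w hw
  have h8 : pf M r T e (e (e.symm w)) = _ :=
    pf_cmp _ (cx_mem (e.symm z)) e he _ hw.2.1 hw.2.2.1
  rw [hw.2.2.2.2.2.1, hw.2.2.2.2.2.2] at h8
  exact h8

theorem pf_form (hT : M.Form T) : (pd M).Form (pf M r T) :=
  ⟨pf_ten hT.toTen, ((mSUB _ _ _ (pd_sub M)).1 _ (pf_ten hT.toTen)).1
    (allOn_ps fun e he a w hw hw' => by
      rw [pf_pc hT.toTen he ⟨hw, hw'⟩]
      exact blk_herm (hT.herm e he _ hw))⟩

theorem pf_clo (hT : M.Clo T) : (pd M).Clo (pf M r T) :=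
  ⟨pf_form hT.toForm, ((mSUB _ _ _ (pd_sub M)).1 _ (pf_ten hT.toTen)).2.2.2.1
    (allOn_ps fun e he _ _ hw hw' =>
      (clM_blk r (hT.sm e he _ hw) (hT.cl e he _ hw)).congr (pf_ev hT.toTen he ⟨hw, hw'⟩))⟩

theorem pf_met (hr : 0 < r) (hT : M.Met T) : (pd M).Met (pf M r T) :=
  ⟨pf_form hT.toForm, ((mSUB _ _ _ (pd_sub M)).1 _ (pf_ten hT.toTen)).2.1
    (allOn_ps fun e he a w hw hw' => by
      rw [pf_pc hT.toTen he ⟨hw, hw'⟩]
      exact blk_pd hr (hT.pos e he _ hw))⟩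

theorem pf_kae (hr : 0 < r) (hT : M.Kae T) : (pd M).Kae (pf M r T) :=
  ⟨pf_clo hT.toClo, (pf_met hr hT.toMet).pos⟩

theorem pf_le (hr : r ≤ s) (h : M.Le S T) : (pd M).Le (pf M r S) (pf M s T) := fun e _ z _ => by
  have h1 : pf M s T e z - pf M r S e z = pf M (s - r) (T - S) e z := by rw [pf_sub]; rfl
  beta_reduce
  rw [h1]
  exact (blk_psd (sub_nonneg.2 hr) (Mf.AllOn.ch h _)).conjTranspose_mul_mul_same _

theorem pf_nonneg (hr : 0 ≤ r) (h : M.Le 0 T) : (pd M).Le 0 (pf M r T) := by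
  rw [← pf_zero]
  exact pf_le hr h

/-- Equality of tensors is checked in product charts. -/
theorem eq_pf {G : (pd M).Fam (Mat (n + 1))} (hG : (pd M).Ten G) (hT : M.Ten T)
    (h : ∀ e ∈ M.C, ∀ a, ∀ w ∈ (pc e a).target, G (pc e a) w = blk r (T e (Fin.tail w))) :
    (pd M).All fun e z => G e z = pf M r T e z :=
  ((mSUB _ _ _ (pd_sub M)).1 _ hG).2.2.2.2.1 _ (pf_ten hT) (allOn_ps fun e he a w hw hw' => by
    rw [pf_pc hT he ⟨hw, hw'⟩]
    exact h e he a w ⟨hw, hw'⟩)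

theorem hs_fst {f : M.X → ℝ} (hf : M.Sm f) : (pd M).All fun e z =>
    (pd M).hs (fun x : M.X × To => f x.1) e z = pf M 0 (M.hs f) e z :=
  eq_pf ((mHES _ _).1 _ (sm_fst hf)).toTen ((mHES _ _).1 _ hf).toTen fun e he _ _ hw =>
    hess_tail (f := M.lc f e) (hf.lc e he _ hw.1)

theorem ds_fst {f g : M.X → ℝ} (hf : M.Sm f) (hg : M.Sm g) : (pd M).All fun e z =>
    (pd M).ds (fun x : M.X × To => f x.1) (fun x : M.X × To => g x.1) e z =
      pf M 0 (M.ds f g) e z :=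
  eq_pf ((mHES _ _).2.1 _ _ (sm_fst hf) (sm_fst hg)).1 ((mHES _ _).2.1 _ _ hf hg).1
    fun e he _ _ hw => dd_tail (f := M.lc f e) (g := M.lc g e) (cd_diff (hf.lc e he _ hw.1))
      (cd_diff (hg.lc e he _ hw.1))

theorem ric_pf (hr : 0 < r) (hT : M.Met T) : (pd M).All fun e z =>
    (pd M).ric (pf M r T) e z = pf M 0 (M.ric T) e z := by
  refine eq_pf ((mHES _ _).2.2.2.2.2.2.2.2.1 _ (pf_met hr hT)).toTen
    ((mHES _ _).2.2.2.2.2.2.2.2.1 _ hT).toTen fun e he a w hw => ?_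
  have h1 : ContDiffAt ℝ ∞ (ld (T e)) (Fin.tail w) :=
    ((mCOF _ _ _ (hT.sm e he _ hw.1)).2.2.2.2.2 (Mf.AllOn.ev hT.pos he hw.1)).1
  have h2 : ld (pf M r T (pc e a)) =ᶠ[𝓝 w]
      fun u => (fun z => (Real.log r : ℂ) + ld (T e) z) (Fin.tail u) := by
    filter_upwards [(pc e a).open_target.eventually_mem hw] with u hu
    rw [ld, pf_pc hT.toTen he hu, blk_det, re_ofReal_mul,
      Real.log_mul hr.ne' (Mf.pd_det_re (hT.pos e he (Fin.tail u) hu.1)).ne', ofReal_add, ld]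
  show -hess (ld (pf M r T (pc e a))) w = blk (0 : ℝ) (-hess (ld (T e)) (Fin.tail w))
  rw [hess_congr h2, hess_tail (contDiffAt_const.add h1), hess_add contDiffAt_const h1, hess_const,
    zero_add, ← blk_neg, neg_zero, ofReal_zero]

end Pool.Agent.Lib.ZE80
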