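import Pool.Agent.Lib.HS32.MAll

/-! Block matrices of size `n + 1` and calculus in `n + 1` variables. -/

open scoped Classical Topology ContDiff ComplexOrder Matrix
open Set Complex Filter

noncomputable section

namespace Pool.Agent.Lib.ZE80

open Pool.Agent.Lib.SV (E)
open Pool.Agent.Lib.HS32

variable {n : ℕ}

/-- The block diagonal matrix with blocks `r` and `A`. -/
def blk (r : ℂ) (A : Mat n) : Mat (n + 1) :=
  Matrix.of (Fin.cons (Fin.cons r 0) fun i => Fin.cons 0 (A i))

/-- The lower right block. -/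
def low (B : Mat (n + 1)) : Mat n := B.submatrix Fin.succ Fin.succ

section alg

variable {r s : ℂ} {A B : Mat n}

@[simp] theorem blk_00 : blk r A 0 0 = r := rfl

@[simp] theorem blk_0s (j : Fin n) : blk r A 0 j.succ = 0 := rfl

@[simp] theorem blk_s0 (i : Fin n) : blk r A i.succ 0 = 0 := rfl

@[simp] theorem blk_ss (i j : Fin n) : blk r A i.succ j.succ = A i j := rfl

@[simp] theorem low_apply (B : Mat (n + 1)) (i j : Fin n) : low B i j = B i.succ j.succ := rfl

theorem ext4 {S T : Mat (n + 1)} (h1 : S 0 0 = T 0 0) (h2 : ∀ j : Fin n, S 0 j.succ = T 0 j.succ)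
    (h3 : ∀ i : Fin n, S i.succ 0 = T i.succ 0)
    (h4 : ∀ i j : Fin n, S i.succ j.succ = T i.succ j.succ) : S = T := by
  ext i j
  refine Fin.cases ?_ (fun i => ?_) i <;> refine Fin.cases ?_ (fun j => ?_) j
  exacts [h1, h2 j, h3 i, h4 i j]

theorem low_blk : low (blk r A) = A := rfl

theorem low_add (S T : Mat (n + 1)) : low (S + T) = low S + low T := rfl

theorem low_sub (S T : Mat (n + 1)) : low (S - T) = low S - low T := rfl

theorem low_rsmul (c : ℝ) (T : Mat (n + 1)) : low (c • T) = c • low T := rfl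

theorem low_pd {T : Mat (n + 1)} (h : T.PosDef) : (low T).PosDef :=
  h.submatrix (Fin.succ_injective n)

theorem low_psd {T : Mat (n + 1)} (h : T.PosSemidef) : (low T).PosSemidef := h.submatrix _

theorem blk_add : blk (r + s) (A + B) = blk r A + blk s B := by apply ext4 <;> simp

theorem blk_sub : blk (r - s) (A - B) = blk r A - blk s B := by apply ext4 <;> simp

theorem blk_neg : blk (-r) (-A) = -blk r A := by apply ext4 <;> simp

theorem blk_zero : blk 0 (0 : Mat n) = 0 := by apply ext4 <;> simp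

theorem blk_one : blk 1 (1 : Mat n) = 1 := by
  apply ext4 <;> simp [Matrix.one_apply, Fin.succ_ne_zero, (Fin.succ_ne_zero _).symm]

theorem blk_smul (c : ℂ) : blk (c * r) (c • A) = c • blk r A := by apply ext4 <;> simp

theorem blk_rsmul (c : ℝ) : blk (c * r) (c • A) = c • blk r A := by apply ext4 <;> simp

theorem blk_mul : blk r A * blk s B = blk (r * s) (A * B) := by
  apply ext4 <;> simp [Matrix.mul_apply, Fin.sum_univ_succ]

theorem blk_ct : (blk r A)ᴴ = blk (star r) Aᴴ := by apply ext4 <;> simp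

theorem blk_det : (blk r A).det = r * A.det := by
  rw [Matrix.det_succ_row_zero, Fin.sum_univ_succ]
  simp only [blk_0s, mul_zero, zero_mul, Finset.sum_const_zero, add_zero, blk_00, Fin.val_zero,
    pow_zero, one_mul, Fin.succAbove_zero]
  rfl

theorem blk_trace : (blk r A).trace = r + A.trace := by simp [Matrix.trace, Fin.sum_univ_succ]

theorem blk_inv (hr : r ≠ 0) (hA : A.det ≠ 0) : (blk r A)⁻¹ = blk r⁻¹ A⁻¹ :=
  Matrix.inv_eq_right_inv (by
    rw [blk_mul, mul_inv_cancel₀ hr, Matrix.mul_nonsing_inv _ hA.isUnit, blk_one])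

theorem blk_mulVec (v : E (n + 1)) :
    blk r A *ᵥ v = Fin.cons (r * v 0) (A *ᵥ Fin.tail v) := by
  funext i
  refine Fin.cases ?_ (fun i => ?_) i <;>
    simp [Matrix.mulVec, dotProduct, Fin.sum_univ_succ, Fin.tail]

theorem blk_form (v : E (n + 1)) : star v ⬝ᵥ blk r A *ᵥ v =
    r * (star (v 0) * v 0) + star (Fin.tail v) ⬝ᵥ A *ᵥ Fin.tail v := by
  rw [blk_mulVec]
  simp only [dotProduct, Fin.sum_univ_succ, Fin.cons_zero, Fin.cons_succ, Pi.star_apply, Fin.tail]
  ring

theorem blk_herm {r : ℝ} (hA : A.IsHermitian) : (blk r A).IsHermitian := by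
  rw [Matrix.IsHermitian, blk_ct, hA.eq]
  simp

theorem blk_psd {r : ℝ} (hr : 0 ≤ r) (hA : A.PosSemidef) : (blk r A).PosSemidef := by
  refine Matrix.PosSemidef.of_dotProduct_mulVec_nonneg (blk_herm hA.1) fun v => ?_
  rw [blk_form]
  exact add_nonneg (mul_nonneg (by exact_mod_cast hr) (star_mul_self_nonneg _))
    (hA.dotProduct_mulVec_nonneg _)

theorem blk_pd {r : ℝ} (hr : 0 < r) (hA : A.PosDef) : (blk r A).PosDef := by
  refine (blk_psd hr.le hA.posSemidef).posDef_iff_isUnit.2 ?_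
  rw [Matrix.isUnit_iff_isUnit_det, blk_det]
  exact (mul_ne_zero (by exact_mod_cast hr.ne') hA.det_pos.ne').isUnit

/-- The determinant of the lower block. -/
theorem det_low {G : Mat (n + 1)} (h : G.det ≠ 0) : (low G).det = G⁻¹ 0 0 * G.det := by
  rw [Matrix.inv_def, Matrix.smul_apply, Matrix.adjugate_fin_succ_eq_det_submatrix,
    Ring.inverse_eq_inv', smul_eq_mul]
  simp only [Fin.val_zero, add_zero, pow_zero, one_mul, Fin.succAbove_zero]
  rw [mul_comm G.det⁻¹, inv_mul_cancel_right₀ h]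
  rfl

theorem trace_mul_unit (S : Mat (n + 1)) : (S * blk 1 0).trace = S 0 0 := by
  simp [Matrix.trace, Matrix.mul_apply, Fin.sum_univ_succ]

theorem blk_unit : blk 1 (0 : Mat n) =
    Matrix.vecMulVec (star (Pi.single 0 1 : E (n + 1))) (Pi.single 0 1) := by
  apply ext4 <;> simp [Matrix.vecMulVec_apply, Fin.succ_ne_zero]

end alg

/-! ### Calculus -/

/-- The last `n` coordinates. -/
def tl (𝕜 : Type) [RCLike 𝕜] [NormedAlgebra 𝕜 ℂ] (n : ℕ) : E (n + 1) →L[𝕜] E n :=
  ContinuousLinearMap.pi fun i => ContinuousLinearMap.proj i.succ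

theorem tl_coe (𝕜 : Type) [RCLike 𝕜] [NormedAlgebra 𝕜 ℂ] : ⇑(tl 𝕜 n) = Fin.tail := rfl

/-- The inclusion of the last `n` coordinates. -/
def inc (n : ℕ) : E n →L[ℝ] E (n + 1) :=
  ContinuousLinearMap.pi (Fin.cons 0 fun i => ContinuousLinearMap.proj i)

theorem inc_apply (z : E n) : inc n z = Fin.cons 0 z := by
  funext i
  refine Fin.cases rfl (fun i => rfl) i

theorem cons_eq (τ : ℂ) (z : E n) : (Fin.cons τ z : E (n + 1)) = Pi.single 0 τ + inc n z := by
  funext i
  refine Fin.cases ?_ (fun i => ?_) i <;> simp [inc_apply]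

theorem tail_single0 (c : ℂ) : Fin.tail (Pi.single 0 c : E (n + 1)) = 0 := by
  funext i
  simp [Fin.tail]

theorem tail_single (j : Fin n) (c : ℂ) :
    Fin.tail (Pi.single j.succ c : E (n + 1)) = Pi.single j c := by
  funext i
  simp [Fin.tail, Pi.single_apply]

theorem inc_single (j : Fin n) (c : ℂ) : inc n (Pi.single j c) = Pi.single j.succ c := by
  funext i
  refine Fin.cases ?_ (fun i => ?_) i <;>
    simp [inc_apply, Pi.single_apply, (Fin.succ_ne_zero _).symm]

theorem cd_tail (w : E (n + 1)) : ContDiffAt ℝ ∞ (Fin.tail : E (n + 1) → E n) w :=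
  (tl ℝ n).contDiff.contDiffAt

theorem hfd_cons (τ : ℂ) (z : E n) :
    HasFDerivAt (fun z : E n => (Fin.cons τ z : E (n + 1))) (inc n) z := by
  simp only [cons_eq]
  exact (inc n).hasFDerivAt.const_add _

theorem cd_cons (τ : ℂ) (z : E n) :
    ContDiffAt ℝ ∞ (fun z : E n => (Fin.cons τ z : E (n + 1))) z := by
  simp only [cons_eq]
  exact contDiffAt_const.add (inc n).contDiff.contDiffAt

theorem cd_single (z : E n) (τ : ℂ) :
    ContDiffAt ℝ ∞ (fun τ : ℂ => (Fin.cons τ z : E (n + 1))) τ :=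
  contDiffAt_pi.2 fun i => Fin.cases contDiffAt_id (fun _ => contDiffAt_const) i

section cal

variable {f g : E n → ℂ} {w : E (n + 1)} {F : E (n + 1) → ℂ} {τ : ℂ} {z : E n}

theorem fderiv_tail (hf : DifferentiableAt ℝ f (Fin.tail w)) (v : E (n + 1)) :
    fderiv ℝ (fun w => f (Fin.tail w)) w v = fderiv ℝ f (Fin.tail w) (Fin.tail v) := by
  have := (hf.hasFDerivAt.comp w (tl ℝ n).hasFDerivAt).fderiv
  exact congrArg (fun L : E (n + 1) →L[ℝ] ℂ => L v) this

theorem dz_tail0 (hf : DifferentiableAt ℝ f (Fin.tail w)) :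
    dz 0 (fun w => f (Fin.tail w)) w = 0 := by
  simp [dz, fderiv_tail hf, tail_single0]

theorem dzb_tail0 (hf : DifferentiableAt ℝ f (Fin.tail w)) :
    dzb 0 (fun w => f (Fin.tail w)) w = 0 := by
  simp [dzb, fderiv_tail hf, tail_single0]

theorem dz_tail (hf : DifferentiableAt ℝ f (Fin.tail w)) (j : Fin n) :
    dz j.succ (fun w => f (Fin.tail w)) w = dz j f (Fin.tail w) := by
  simp only [dz, fderiv_tail hf, tail_single]

theorem dzb_tail (hf : DifferentiableAt ℝ f (Fin.tail w)) (j : Fin n) :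
    dzb j.succ (fun w => f (Fin.tail w)) w = dzb j f (Fin.tail w) := by
  simp only [dzb, fderiv_tail hf, tail_single]

theorem ev_tail {p : E n → Prop} (h : ∀ᶠ z in 𝓝 (Fin.tail w), p z) :
    ∀ᶠ u in 𝓝 w, p (Fin.tail u) := (cd_tail w).continuousAt.eventually h

theorem ev_cons {p : E (n + 1) → Prop} (h : ∀ᶠ u in 𝓝 (Fin.cons τ z : E (n + 1)), p u) :
    ∀ᶠ u in 𝓝 z, p (Fin.cons τ u) := (cd_cons τ z).continuousAt.eventually h

theorem hess_tail (hf : ContDiffAt ℝ ∞ f (Fin.tail w)) :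
    hess (fun w => f (Fin.tail w)) w = blk 0 (hess f (Fin.tail w)) := by
  have h0 : dz 0 (fun w => f (Fin.tail w)) =ᶠ[𝓝 w] fun _ => 0 :=
    (ev_tail (cd_ev_diff hf)).mono fun u hu => dz_tail0 hu
  have h1 : ∀ j : Fin n, dz j.succ (fun w => f (Fin.tail w)) =ᶠ[𝓝 w] fun u => dz j f (Fin.tail u) :=
    fun j => (ev_tail (cd_ev_diff hf)).mono fun u hu => dz_tail hu j
  apply ext4
  · exact (dzb_congr h0).trans (dzb_const 0)
  · exact fun j => (dzb_congr (h1 j)).trans (dzb_tail0 (cd_diff (cd_dz hf j)))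
  · exact fun i => (dzb_congr h0).trans (dzb_const 0)
  · exact fun i j => (dzb_congr (h1 j)).trans (dzb_tail (cd_diff (cd_dz hf j)) i)

theorem dd_tail (hf : DifferentiableAt ℝ f (Fin.tail w)) (hg : DifferentiableAt ℝ g (Fin.tail w)) :
    dd (fun w => f (Fin.tail w)) (fun w => g (Fin.tail w)) w = blk 0 (dd f g (Fin.tail w)) := by
  apply ext4 <;> simp [dd, dz_tail0 hg, dzb_tail0 hf, dz_tail hg, dzb_tail hf]

theorem fderiv_cons (hF : DifferentiableAt ℝ F (Fin.cons τ z)) (v : E n) :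
    fderiv ℝ (fun z => F (Fin.cons τ z)) z v = fderiv ℝ F (Fin.cons τ z) (inc n v) := by
  have := (hF.hasFDerivAt.comp z (hfd_cons τ z)).fderiv
  exact congrArg (fun L : E n →L[ℝ] ℂ => L v) this

theorem dz_cons (hF : DifferentiableAt ℝ F (Fin.cons τ z)) (j : Fin n) :
    dz j (fun z => F (Fin.cons τ z)) z = dz j.succ F (Fin.cons τ z) := by
  simp only [dz, fderiv_cons hF, inc_single]

theorem dzb_cons (hF : DifferentiableAt ℝ F (Fin.cons τ z)) (j : Fin n) :
    dzb j (fun z => F (Fin.cons τ z)) z = dzb j.succ F (Fin.cons τ z) := by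
  simp only [dzb, fderiv_cons hF, inc_single]

theorem hess_cons (hF : ContDiffAt ℝ ∞ F (Fin.cons τ z)) :
    hess (fun z => F (Fin.cons τ z)) z = low (hess F (Fin.cons τ z)) := by
  ext i j
  have h1 : dz j (fun z => F (Fin.cons τ z)) =ᶠ[𝓝 z] fun u => dz j.succ F (Fin.cons τ u) :=
    (ev_cons (cd_ev_diff hF)).mono fun u hu => dz_cons hu j
  exact (dzb_congr h1).trans (dzb_cons (cd_diff (cd_dz hF _)) i)

theorem smM_blk {T : E n → Mat n} (r : ℂ) (hT : SmM T (Fin.tail w)) :
    SmM (fun w => blk r (T (Fin.tail w))) w := fun i j => by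
  refine Fin.cases ?_ (fun i => ?_) i <;> refine Fin.cases ?_ (fun j => ?_) j
  exacts [contDiffAt_const, contDiffAt_const, contDiffAt_const, (hT i j).comp w (cd_tail w)]

theorem clM_blk {T : E n → Mat n} (r : ℂ) (hT : SmM T (Fin.tail w)) (hc : ClM T (Fin.tail w)) :
    ClM (fun w => blk r (T (Fin.tail w))) w := fun i j k => by
  have a0 : ∀ i j, dz 0 (fun w => T (Fin.tail w) i j) w = 0 :=
    fun i j => dz_tail0 (f := fun z => T z i j) (hT.diff i j)
  have a1 : ∀ i j (k : Fin n), dz k.succ (fun w => T (Fin.tail w) i j) w =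
      dM k T (Fin.tail w) i j := fun i j k => dz_tail (f := fun z => T z i j) (hT.diff i j) k
  refine Fin.cases ?_ (fun i => ?_) i <;> refine Fin.cases ?_ (fun j => ?_) j <;>
    refine Fin.cases ?_ (fun k => ?_) k <;>
    simp only [dM_apply, blk_00, blk_0s, blk_s0, blk_ss, dz_const, a0, a1]
  exact hc i j k

end cal

end Pool.Agent.Lib.ZE80
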